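import Pool.Agent.H95.Asy2

set_option autoImplicit false
open scoped BoundedContinuousFunction
open Pool.Agent.H95.AsyDefs

universe u

theorem Pool.Agent.Results.MP_fdf6c3_an.EssOne.result
    (H : Type u) [NormedAddCommGroup H] [InnerProductSpace ℂ H] [CompleteSpace H]
    (hH : ¬ FiniteDimensional ℂ H) (L : (ℕ →ᵇ ℂ) →ₗ[ℂ] ℂ) (hL : IsBanachLimit L)
    (T A : H →L[ℂ] H) (hT : PowerBounded T) (hA : IsAsympLimit L T A) (hp : A.IsPositive)
    (t : ℝ) (ht : 0 < t) (h : essSpec A = {(t : ℂ)}) : t = 1 :=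
  Pool.Agent.H95.Asy.ess_one hH hL hT hA hp ht h
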